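import Mathlib
import Pool.Agent.H875.EC1.Defs
import Pool.Agent.H875.EC1.Final

open Pool.Agent.Helper834.EC
open Pool.Agent.H875.EC1 (schemeConfs groupForm)

/-- Equations for the eigencompatibility variety of binary tensors (`n = 1`), for every `d ≥ 3`:
in homogeneous coordinates of the `d` groups of `d` points of the projective line, with
`a_k`, `b_k`, `c_k` the coefficients of `v^d`, `u^d` and `(uv)^{d/2}` in the binary form of the
`k`-th group, the variety is cut out by `a_k b_l = a_l b_k` for all `k`, `l` and, for `d` even, the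
two equations `∑_k c_k ∏_{l ≠ k} a_l = 0`, `∑_k c_k ∏_{l ≠ k} b_l = 0`. The same holds for the closure
of any set of eigenconfigurations between those with distinct points and those counted with
multiplicity. -/
theorem Pool.Agent.Results.MP_72974f_ag.BinaryEquations.result (d : ℕ) (hd : 3 ≤ d) :
    eigenConfs 1 d ⊆ schemeConfs d ∧
    ∀ E : Set (Conf 1 d), eigenConfs 1 d ⊆ E → E ⊆ schemeConfs d → ∀ y : Coord 1 d,
      (toConf y ∈ closure E ↔
        (∀ k l, (groupForm y k).coeff 0 * (groupForm y l).coeff d =
          (groupForm y l).coeff 0 * (groupForm y k).coeff d) ∧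
        (Even d →
          ∑ k, (groupForm y k).coeff (d / 2) *
            ∏ l ∈ Finset.univ.erase k, (groupForm y l).coeff 0 = 0 ∧
          ∑ k, (groupForm y k).coeff (d / 2) *
            ∏ l ∈ Finset.univ.erase k, (groupForm y l).coeff d = 0)) :=
  ⟨Pool.Agent.H875.EC1.eigenConfs_sub_schemeConfs hd,
    fun E hE1 hE2 y => Pool.Agent.H875.EC1.closure_eq hd E hE1 hE2 y⟩
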